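import Pool.Agent.H775.Fin23

/-!
The conjectured number of vertices `(d + 2).choose 2 + (d - 1) / 2` of a triangulation of real
projective `d`-space is not attained for `d = 5`.
-/

set_option autoImplicit false

namespace Pool.Agent.Results.MP_4e034d_co.Lutz23fails

/-- There is `d ≥ 1` such that no geometric simplicial complex (in any Euclidean space) with exactly
`(d + 2).choose 2 + (d - 1) / 2` vertices has its underlying space homeomorphic to the `d`-sphere
with antipodal points identified. -/
theorem result : ∃ d : ℕ, 1 ≤ d ∧ ∀ (n : ℕ)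
    (K : Geometry.SimplicialComplex ℝ (EuclideanSpace ℝ (Fin n))),
    K.vertices.ncard = (d + 2).choose 2 + (d - 1) / 2 →
    ¬ Nonempty (K.space ≃ₜ
      Quot (fun x y : Metric.sphere (0 : EuclideanSpace ℝ (Fin (d + 1))) 1 =>
        (x : EuclideanSpace ℝ (Fin (d + 1))) = (y : EuclideanSpace ℝ (Fin (d + 1))) ∨
        (x : EuclideanSpace ℝ (Fin (d + 1))) = -(y : EuclideanSpace ℝ (Fin (d + 1))))) := by
  refine ⟨5, by norm_num, fun n K hc h => ?_⟩
  have e : (5 + 2).choose 2 + (5 - 1) / 2 = 23 := by decide
  rw [e] at hc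
  have hK : K.vertices.Finite := Set.finite_of_ncard_ne_zero (by rw [hc]; norm_num)
  have h24 : 24 ≤ K.vertices.ncard := Pool.Agent.H775.final_of
    (fun _ _ _ _ _ _ hA hc hy hs => Pool.Agent.H775.main46 hA hc hy hs) K hK h
  omega

end Pool.Agent.Results.MP_4e034d_co.Lutz23fails
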